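import Pool.Agent.W169.HF.DefsB

set_option autoImplicit false

open Complex MeasureTheory Filter Topology Set

namespace Pool.Agent.W351.HF

/-- three circles -/
theorem tc0 (r2 r4 B η : ℝ) (h1 : 1 < r2) (h2 : r2 < r4) (hB : 0 < B) (hη : 0 < η) :
    ∃ δ : ℝ, 0 < δ ∧ ∀ g : ℂ → ℂ, DifferentiableOn ℂ g (Metric.ball 0 r4) → g 0 = 0 →
      (∀ z ∈ Metric.ball (0 : ℂ) r4, (g z).re ≤ B) → (∀ z ∈ Metric.ball (0 : ℂ) 1, (g z).re ≤ δ) →
      ∀ z : ℂ, ‖z‖ ≤ r2 → ‖g z‖ ≤ η := by
  obtain ⟨r3, hr3⟩ : ∃ r3, r3 = (r2 + r4) / 2 := ⟨_, rfl⟩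
  have h23 : r2 < r3 := by rw [hr3]; linarith
  have h34 : r3 < r4 := by rw [hr3]; linarith
  obtain ⟨C, hC⟩ : ∃ C, C = max 1 (2 * B * r3 / (r4 - r3)) := ⟨_, rfl⟩
  have hC1 : 1 ≤ C := by rw [hC]; exact le_max_left _ _
  have hC2 : 2 * B * r3 / (r4 - r3) ≤ C := by rw [hC]; exact le_max_right _ _
  obtain ⟨l, hl⟩ : ∃ l, l = Real.log (1 / 2) := ⟨_, rfl⟩
  obtain ⟨u, hu⟩ : ∃ u, u = Real.log r3 := ⟨_, rfl⟩
  obtain ⟨m, hm⟩ : ∃ m, m = Real.log r2 := ⟨_, rfl⟩
  have hlm : l < m := by rw [hl, hm]; exact Real.log_lt_log (by norm_num) (by linarith)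
  have hmu : m < u := by rw [hm, hu]; exact Real.log_lt_log (by linarith) h23
  obtain ⟨a, ha⟩ : ∃ a, a = (m - l) / (u - l) := ⟨_, rfl⟩
  have ha1 : a < 1 := by rw [ha, div_lt_one (by linarith)]; linarith
  have ha0 : 0 < a := by rw [ha]; exact div_pos (by linarith) (by linarith)
  have h1a : 0 < 1 - a := by linarith
  obtain ⟨q, hq⟩ : ∃ q, q = (η / C) ^ (1 / (1 - a)) := ⟨_, rfl⟩
  have hηC : 0 < η / C := div_pos hη (by linarith)
  have hq0 : 0 < q := by rw [hq]; exact Real.rpow_pos_of_pos hηC _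
  obtain ⟨δ, hδ⟩ : ∃ δ, δ = min 1 (min η q) / 2 := ⟨_, rfl⟩
  have hδ0 : 0 < δ := by
    rw [hδ]
    have : 0 < min 1 (min η q) := lt_min one_pos (lt_min hη hq0)
    linarith
  have h2δ : 2 * δ = min 1 (min η q) := by rw [hδ]; ring
  have hδ1 : 2 * δ ≤ 1 := by rw [h2δ]; exact min_le_left _ _
  have hδ2 : 2 * δ ≤ η := by rw [h2δ]; exact (min_le_right _ _).trans (min_le_left _ _)
  have hδ3 : (2 * δ) ^ (1 - a) ≤ η / C := by
    have h3 : 2 * δ ≤ q := by rw [h2δ]; exact (min_le_right _ _).trans (min_le_right _ _)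
    calc (2 * δ) ^ (1 - a) ≤ q ^ (1 - a) := Real.rpow_le_rpow (by linarith) h3 h1a.le
      _ = η / C := by
        rw [hq, ← Real.rpow_mul hηC.le, one_div_mul_cancel h1a.ne', Real.rpow_one]
  refine ⟨δ, hδ0, ?_⟩
  intro g hg hg0 hgB hgδ z hz
  have b1 : ∀ z : ℂ, ‖z‖ ≤ r3 → ‖g z‖ ≤ C := by
    intro z hz
    have hh := borelCaratheodory_zero hB hg (fun z hz => hgB z hz) (by linarith) (z := z)
      (by rw [mem_ball_zero_iff]; linarith) hg0
    refine hh.trans (le_trans ?_ hC2)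
    have p1 : 2 * B * ‖z‖ ≤ 2 * B * r3 := mul_le_mul_of_nonneg_left hz (by linarith)
    have p2 : 0 ≤ 2 * B * r3 := mul_nonneg (by linarith) (by linarith)
    exact div_le_div₀ p2 p1 (by linarith) (by linarith)
  have b2 : ∀ z : ℂ, ‖z‖ ≤ 1 / 2 → ‖g z‖ ≤ 2 * δ := by
    intro z hz
    have hh := borelCaratheodory_zero hδ0 (hg.mono (Metric.ball_subset_ball (by linarith)))
      (fun z hz => hgδ z hz) one_pos (z := z) (by rw [mem_ball_zero_iff]; linarith) hg0
    refine hh.trans ?_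
    rw [div_le_iff₀ (by linarith)]
    have : 2 * δ * ‖z‖ ≤ 2 * δ * (1 - ‖z‖) := mul_le_mul_of_nonneg_left (by linarith) (by linarith)
    linarith
  rcases le_or_gt ‖z‖ (1 / 2) with hz2 | hz2
  · exact (b2 z hz2).trans hδ2
  · have hznorm : 0 < ‖z‖ := by linarith
    have hz0 : z ≠ 0 := norm_pos_iff.1 hznorm
    have hlz : l < Real.log ‖z‖ := by rw [hl]; exact Real.log_lt_log (by norm_num) hz2
    have hzm : Real.log ‖z‖ ≤ m := by rw [hm]; exact Real.log_le_log hznorm hz
    have hexp : ∀ w : ℂ, w.re ≤ u → ‖cexp w‖ ≤ r3 := by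
      intro w hw
      rw [Complex.norm_exp]
      calc Real.exp w.re ≤ Real.exp u := Real.exp_le_exp.2 hw
        _ = r3 := by rw [hu]; exact Real.exp_log (by linarith)
    have hsub : closure (HadamardThreeLines.verticalStrip l u) ⊆
        HadamardThreeLines.verticalClosedStrip l u := by
      apply closure_minimal
      · intro w hw
        exact ⟨hw.1.le, hw.2.le⟩
      · exact isClosed_Icc.preimage Complex.continuous_re
    have key := Complex.HadamardThreeLines.norm_le_interp_of_mem_verticalClosedStrip'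
      (f := fun w => g (cexp w)) (z := Complex.log z) (a := 2 * δ) (b := C) (l := l) (u := u)
      (by linarith) ?_ ?_ ?_ ?_ ?_
    · simp only [Complex.exp_log hz0, Complex.log_re] at key
      refine key.trans ?_
      obtain ⟨s, hs⟩ : ∃ s, s = (Real.log ‖z‖ - l) / (u - l) := ⟨_, rfl⟩
      rw [← hs]
      have hsa : s ≤ a := by
        rw [hs, ha]; gcongr; linarith
      have hs0 : 0 ≤ s := by rw [hs]; exact div_nonneg (by linarith) (by linarith)
      have e1 : (2 * δ) ^ (1 - s) ≤ (2 * δ) ^ (1 - a) :=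
        Real.rpow_le_rpow_of_exponent_ge (by linarith) hδ1 (by linarith)
      have e2 : C ^ s ≤ C := by
        calc C ^ s ≤ C ^ (1 : ℝ) := Real.rpow_le_rpow_of_exponent_le hC1 (by linarith)
          _ = C := Real.rpow_one C
      calc (2 * δ) ^ (1 - s) * C ^ s ≤ (η / C) * C := by
            apply mul_le_mul (e1.trans hδ3) e2 (Real.rpow_nonneg (by linarith) _) hηC.le
        _ = η := by field_simp
    · constructor
      · rw [Complex.log_re]; exact hlz.le
      · rw [Complex.log_re]; linarith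
    · apply DifferentiableOn.diffContOnCl
      intro w hw
      have hw2 := (hsub hw).2
      apply DifferentiableAt.differentiableWithinAt
      have hd : DifferentiableAt ℂ g (cexp w) := by
        apply hg.differentiableAt
        apply Metric.isOpen_ball.mem_nhds
        rw [mem_ball_zero_iff]
        exact lt_of_le_of_lt (hexp w hw2) h34
      exact hd.comp w Complex.differentiable_exp.differentiableAt
    · refine ⟨C, ?_⟩
      rintro _ ⟨w, hw, rfl⟩
      exact b1 _ (hexp w hw.2)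
    · intro w hw
      apply b2
      rw [Complex.norm_exp, show w.re = l from hw, hl, Real.exp_log (by norm_num)]
    · intro w hw
      exact b1 _ (hexp w (le_of_eq hw))

/-- Analytic logarithm on a ball (copied from `Pool.Agent.W186.HZ.exlog` of helper186). -/
lemma exlog {k : ℂ → ℂ} {r : ℝ} (hr : 0 < r) (hk : DifferentiableOn ℂ k (Metric.ball 0 r))
    (hk0 : ∀ z ∈ Metric.ball (0 : ℂ) r, k z ≠ 0) (h1 : k 0 = 1) :
    ∃ f : ℂ → ℂ, DifferentiableOn ℂ f (Metric.ball 0 r) ∧ f 0 = 0 ∧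
      ∀ z ∈ Metric.ball (0 : ℂ) r, k z = cexp (f z) := by
  have hd : DifferentiableOn ℂ (logDeriv k) (Metric.ball 0 r) :=
    (hk.deriv Metric.isOpen_ball).div hk hk0
  obtain ⟨G, hG⟩ := hd.isExactOn_ball
  have h0 : (0 : ℂ) ∈ Metric.ball (0 : ℂ) r := Metric.mem_ball_self hr
  refine ⟨fun z => G z - G 0,
    fun z hz => ((hG z hz).differentiableAt.sub_const _).differentiableWithinAt,
    by simp, ?_⟩
  have hder : ∀ w ∈ Metric.ball (0 : ℂ) r,
      HasDerivAt (fun w => k w * cexp (-(G w - G 0))) 0 w := by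
    intro w hw
    have hkw := (hk.differentiableAt (Metric.isOpen_ball.mem_nhds hw)).hasDerivAt
    have h2 : HasDerivAt (fun w => k w * cexp (-(G w - G 0))) _ w :=
      hkw.mul (((hG w hw).sub_const (G 0)).neg.cexp)
    refine h2.congr_deriv ?_
    rw [logDeriv_apply]
    have := hk0 w hw
    simp only [Pi.neg_apply]
    field_simp
    ring
  intro z hz
  have := (convex_ball (0 : ℂ) r).norm_image_sub_le_of_norm_hasDerivWithin_le (C := 0)
    (fun w hw => (hder w hw).hasDerivWithinAt) (fun w _ => by simp) h0 hz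
  rw [zero_mul] at this
  have h3 := sub_eq_zero.1 (norm_eq_zero.1 (le_antisymm this (norm_nonneg _)))
  simp only [sub_self, neg_zero, Complex.exp_zero, mul_one, h1] at h3
  have h4 : k z = (k z * cexp (-(G z - G 0))) * cexp (G z - G 0) := by
    rw [mul_assoc, ← Complex.exp_add]; simp
  rw [h4, h3, one_mul]

open Pool.Agent.W169.HF

/-- HF-TC -/
theorem tc : S_TC := by
  intro A ϑ0 ϑ ρ κ R1 hA hϑ hρ hκ hR1
  rcases lt_or_ge R1 (ϑ + ρ) with hcase | hcase
  · refine ⟨1, R1, one_pos, le_rfl, ?_⟩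
    intro ℓ G f _ _ _ _ _ _ u hu1 hu2 _
    exact absurd (hu1.trans hu2) (not_le.2 hcase)
  obtain ⟨M, hM⟩ : ∃ M, M = max |ϑ0| R1 + 2 := ⟨_, rfl⟩
  have hM1 : ϑ0 + 2 ≤ M := by
    have h1 := le_abs_self ϑ0
    have h2 := le_max_left |ϑ0| R1
    rw [hM]; linarith
  have hM2 : R1 + 2 ≤ M := by
    have h2 := le_max_right |ϑ0| R1
    rw [hM]; linarith
  obtain ⟨r4, hr4⟩ : ∃ r, r = M - ϑ := ⟨_, rfl⟩
  obtain ⟨r2, hr2⟩ : ∃ r, r = M - ϑ - ρ / 2 := ⟨_, rfl⟩
  obtain ⟨η, hη⟩ : ∃ η, η = min (κ / 2) (κ * ρ / 2) := ⟨_, rfl⟩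
  have hη0 : 0 < η := by rw [hη]; exact lt_min (by positivity) (by positivity)
  have hη1 : η ≤ κ / 2 := by rw [hη]; exact min_le_left _ _
  have hη2 : η ≤ κ * ρ / 2 := by rw [hη]; exact min_le_right _ _
  have hr21 : 1 < r2 := by rw [hr2]; linarith
  have hr24 : r2 < r4 := by rw [hr2, hr4]; linarith
  obtain ⟨δ, hδ0, hδ⟩ := tc0 r2 r4 (A + 1) η hr21 hr24 (by linarith) hη0
  obtain ⟨κ1, hκ1⟩ : ∃ k, k = min (min 1 (δ / 2)) (κ / 2) := ⟨_, rfl⟩
  have hκ10 : 0 < κ1 := by
    rw [hκ1]; exact lt_min (lt_min one_pos (by linarith)) (by linarith)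
  have hκ1a : κ1 ≤ 1 := by rw [hκ1]; exact (min_le_left _ _).trans (min_le_left _ _)
  have hκ1b : κ1 ≤ δ / 2 := by rw [hκ1]; exact (min_le_left _ _).trans (min_le_right _ _)
  have hκ1c : κ1 ≤ κ / 2 := by rw [hκ1]; exact min_le_right _ _
  refine ⟨κ1, 2 * M + R1, hκ10, by linarith, ?_⟩
  intro ℓ G f hℓ hG hf hne hup hlo u hu1 hu2 hu3
  obtain ⟨c, hc⟩ : ∃ c : ℂ, c = (M : ℂ) + I * (u.im : ℂ) := ⟨_, rfl⟩
  have hcre : c.re = M := by rw [hc]; simp
  have hcim : c.im = u.im := by rw [hc]; simp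
  have hreg4 : ∀ z ∈ Metric.ball (0 : ℂ) r4, ϑ < (c + z).re ∧ (c + z).re < 2 * M + R1 ∧
      |(c + z).im| < 2 * M + R1 := by
    intro z hz
    rw [mem_ball_zero_iff] at hz
    have h1 := (abs_le.1 (Complex.abs_re_le_norm z))
    have h2 := Complex.abs_im_le_norm z
    rw [Complex.add_re, Complex.add_im, hcre, hcim]
    refine ⟨by linarith, by linarith, ?_⟩
    calc |u.im + z.im| ≤ |u.im| + |z.im| := abs_add_le _ _
      _ < 2 * M + R1 := by linarith
  have hreg1 : ∀ z ∈ Metric.ball (0 : ℂ) 1, ϑ0 < (c + z).re ∧ (c + z).re < 2 * M + R1 ∧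
      |(c + z).im| < 2 * M + R1 := by
    intro z hz
    rw [mem_ball_zero_iff] at hz
    have h1 := (abs_le.1 (Complex.abs_re_le_norm z))
    have h2 := Complex.abs_im_le_norm z
    rw [Complex.add_re, Complex.add_im, hcre, hcim]
    refine ⟨by linarith, by linarith, ?_⟩
    calc |u.im + z.im| ≤ |u.im| + |z.im| := abs_add_le _ _
      _ < 2 * M + R1 := by linarith
  have hr40 : 0 < r4 := by linarith
  have hfc0 : f c ≠ 0 := by
    have := hreg4 0 (Metric.mem_ball_self hr40)
    rw [add_zero] at this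
    exact hne c this.1 this.2.1 this.2.2
  have hfc : G * Real.exp (ℓ * M - κ1 * ℓ) ≤ ‖f c‖ ∧ ‖f c‖ ≤ G * Real.exp (ℓ * M + κ1 * ℓ) := by
    have := hreg1 0 (Metric.mem_ball_self one_pos)
    rw [add_zero] at this
    have h2 := hlo c this.1 this.2.1 this.2.2
    rw [hcre] at h2
    exact h2
  have hfcp : 0 < ‖f c‖ := norm_pos_iff.2 hfc0
  obtain ⟨m, hm, hm0, hmF⟩ := exlog (k := fun z => f (c + z) / (f c * cexp (ℓ * z))) hr40
    (by
      intro z _
      apply DifferentiableAt.differentiableWithinAt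
      apply DifferentiableAt.div
      · exact (hf (c + z)).comp z (by fun_prop)
      · fun_prop
      · exact mul_ne_zero hfc0 (Complex.exp_ne_zero _))
    (fun z hz => div_ne_zero (hne _ (hreg4 z hz).1 (hreg4 z hz).2.1 (hreg4 z hz).2.2)
      (mul_ne_zero hfc0 (Complex.exp_ne_zero _)))
    (by simp [hfc0])
  have hfm : ∀ z ∈ Metric.ball (0 : ℂ) r4, f (c + z) = f c * cexp (ℓ * z) * cexp (m z) := by
    intro z hz
    rw [← hmF z hz]
    have := Complex.exp_ne_zero ((ℓ : ℂ) * z)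
    field_simp
  have hnm : ∀ z ∈ Metric.ball (0 : ℂ) r4, ‖f (c + z)‖ =
      ‖f c‖ * Real.exp (ℓ * z.re + (m z).re) := by
    intro z hz
    rw [hfm z hz, norm_mul, norm_mul, Complex.norm_exp, Complex.norm_exp,
      Complex.re_ofReal_mul, Real.exp_add, mul_assoc]
  have hmre : ∀ z ∈ Metric.ball (0 : ℂ) r4, ∀ a : ℝ,
      ‖f (c + z)‖ ≤ G * Real.exp (ℓ * (c + z).re + a * ℓ) → (m z).re ≤ (a + κ1) * ℓ := by
    intro z hz a ha
    rw [hnm z hz, Complex.add_re, hcre] at ha
    have h1 : G * Real.exp (ℓ * M - κ1 * ℓ) * Real.exp (ℓ * z.re + (m z).re) ≤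
        G * Real.exp (ℓ * (M + z.re) + a * ℓ) :=
      (mul_le_mul_of_nonneg_right hfc.1 (Real.exp_pos _).le).trans ha
    rw [mul_assoc, ← Real.exp_add] at h1
    have h2 := le_of_mul_le_mul_left h1 hG
    rw [Real.exp_le_exp] at h2
    nlinarith
  have hg := hδ (fun z => m z / ℓ) (hm.div_const _) (by rw [hm0, zero_div]) ?_ ?_
  · -- the conclusion
    have hz0 : u = c + ((u.re - M : ℝ) : ℂ) := by
      rw [hc]
      apply Complex.ext <;> simp
    obtain ⟨z0, hz0d⟩ : ∃ z0 : ℂ, z0 = ((u.re - M : ℝ) : ℂ) := ⟨_, rfl⟩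
    rw [← hz0d] at hz0
    have hz0n : ‖z0‖ = M - u.re := by
      rw [hz0d, Complex.norm_real, Real.norm_eq_abs, abs_of_nonpos (by linarith)]; ring
    have hz0re : z0.re = u.re - M := by rw [hz0d, Complex.ofReal_re]
    have hz0b : z0 ∈ Metric.ball (0 : ℂ) r4 := by
      rw [mem_ball_zero_iff, hz0n]; linarith
    have hgz0 := hg z0 (by rw [hz0n, hr2]; linarith)
    have hmn : ‖m z0‖ ≤ η * ℓ := by
      rw [norm_div, Complex.norm_real, Real.norm_eq_abs, abs_of_pos hℓ, div_le_iff₀ hℓ] at hgz0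
      exact hgz0
    have hmr := abs_le.1 ((Complex.abs_re_le_norm (m z0)).trans hmn)
    have hηℓ : η * ℓ ≤ κ / 2 * ℓ := mul_le_mul_of_nonneg_right hη1 hℓ.le
    have hκℓ : κ1 * ℓ ≤ κ / 2 * ℓ := mul_le_mul_of_nonneg_right hκ1c hℓ.le
    have hfu := hnm z0 hz0b
    rw [← hz0, hz0re] at hfu
    refine ⟨?_, ?_, ?_⟩
    · rw [hfu]
      calc G * Real.exp (ℓ * u.re - κ * ℓ) ≤
            G * Real.exp (ℓ * M - κ1 * ℓ) * Real.exp (ℓ * (u.re - M) + (m z0).re) := by
            rw [mul_assoc, ← Real.exp_add]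
            apply mul_le_mul_of_nonneg_left _ hG.le
            rw [Real.exp_le_exp]
            nlinarith [hmr.1]
        _ ≤ _ := mul_le_mul_of_nonneg_right hfc.1 (Real.exp_pos _).le
    · rw [hfu]
      calc ‖f c‖ * Real.exp (ℓ * (u.re - M) + (m z0).re) ≤
            G * Real.exp (ℓ * M + κ1 * ℓ) * Real.exp (ℓ * (u.re - M) + (m z0).re) :=
            mul_le_mul_of_nonneg_right hfc.2 (Real.exp_pos _).le
        _ ≤ _ := by
            rw [mul_assoc, ← Real.exp_add]
            apply mul_le_mul_of_nonneg_left _ hG.le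
            rw [Real.exp_le_exp]
            nlinarith [hmr.2]
    · -- the logarithmic derivative
      have hmd : DifferentiableAt ℂ m z0 := hm.differentiableAt (Metric.isOpen_ball.mem_nhds hz0b)
      have hder : HasDerivAt f (f u * (ℓ + deriv m z0)) u := by
        have hsub : u - c = z0 := by rw [hz0]; ring
        have h1 : HasDerivAt (fun w : ℂ => f c * cexp (ℓ * (w - c)) * cexp (m (w - c)))
            (f u * (ℓ + deriv m z0)) u := by
          have e1 : HasDerivAt (fun w : ℂ => w - c) 1 u := (hasDerivAt_id u).sub_const c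
          have e2 : HasDerivAt (fun w : ℂ => cexp (ℓ * (w - c)))
              (cexp (ℓ * (u - c)) * (ℓ * 1)) u := (e1.const_mul (ℓ : ℂ)).cexp
          have e3 : HasDerivAt (fun w : ℂ => m (w - c)) (deriv m z0 * 1) u := by
            have : HasDerivAt m (deriv m z0) (u - c) := by rw [hsub]; exact hmd.hasDerivAt
            exact this.comp u e1
          have e4 := (e2.const_mul (f c)).mul e3.cexp
          refine e4.congr_deriv ?_
          rw [hsub]
          have := hfm z0 hz0b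
          rw [← hz0] at this
          rw [this]
          ring
        refine h1.congr_of_eventuallyEq ?_
        have hnear : ∀ᶠ w in 𝓝 u, w - c ∈ Metric.ball (0 : ℂ) r4 := by
          have hcont : Continuous fun w : ℂ => w - c := by fun_prop
          exact hcont.continuousAt.eventually (Metric.isOpen_ball.mem_nhds (by
            show u - c ∈ _
            rw [hsub]; exact hz0b))
        filter_upwards [hnear] with w hw
        have := hfm (w - c) hw
        rw [add_sub_cancel] at this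
        exact this
      have hfu0 : f u ≠ 0 := by
        have := hreg4 z0 hz0b
        rw [← hz0] at this
        exact hne u this.1 this.2.1 this.2.2
      have hld : logDeriv f u - ℓ = deriv m z0 := by
        rw [logDeriv_apply, hder.deriv, mul_div_cancel_left₀ _ hfu0]; ring
      rw [hld]
      have hρ2 : 0 < ρ / 2 := by linarith
      have hball : Metric.closedBall z0 (ρ / 2) ⊆ Metric.ball (0 : ℂ) r4 := by
        intro w hw
        rw [Metric.mem_closedBall, dist_eq_norm] at hw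
        rw [mem_ball_zero_iff]
        calc ‖w‖ = ‖(w - z0) + z0‖ := by ring_nf
          _ ≤ ‖w - z0‖ + ‖z0‖ := norm_add_le _ _
          _ < r4 := by rw [hz0n]; linarith
      have hcau := Complex.norm_deriv_le_of_forall_mem_sphere_norm_le (f := m) (c := z0)
        (R := ρ / 2) (C := η * ℓ) hρ2 ?_ ?_
      · refine hcau.trans ?_
        rw [div_le_iff₀ hρ2]
        calc η * ℓ ≤ κ * ρ / 2 * ℓ := mul_le_mul_of_nonneg_right hη2 hℓ.le
          _ = κ * ℓ * (ρ / 2) := by ring
      · apply DifferentiableOn.diffContOnCl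
        rw [closure_ball _ hρ2.ne']
        exact hm.mono hball
      · intro w hw
        rw [mem_sphere_iff_norm] at hw
        have h3 := hg w (by
          calc ‖w‖ = ‖(w - z0) + z0‖ := by ring_nf
            _ ≤ ‖w - z0‖ + ‖z0‖ := norm_add_le _ _
            _ ≤ r2 := by rw [hw, hz0n, hr2]; linarith)
        rw [norm_div, Complex.norm_real, Real.norm_eq_abs, abs_of_pos hℓ, div_le_iff₀ hℓ] at h3
        exact h3
  · intro z hz
    have h1 := hmre z hz A (hup _ (hreg4 z hz).1 (hreg4 z hz).2.1 (hreg4 z hz).2.2)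
    rw [Complex.div_ofReal_re, div_le_iff₀ hℓ]
    exact h1.trans (mul_le_mul_of_nonneg_right (by linarith) hℓ.le)
  · intro z hz
    have hz4 : z ∈ Metric.ball (0 : ℂ) r4 := Metric.ball_subset_ball (by linarith) hz
    have h1 := hmre z hz4 κ1 (hlo _ (hreg1 z hz).1 (hreg1 z hz).2.1 (hreg1 z hz).2.2).2
    rw [Complex.div_ofReal_re, div_le_iff₀ hℓ]
    exact h1.trans (mul_le_mul_of_nonneg_right (by linarith) hℓ.le)

end Pool.Agent.W351.HF
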